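import Pool.Agent.H554R2.Gap.DetMain

/-!
# Randomness with `O(1)` queries cannot be removed in time `k n`

For every `k` we give a promise problem on `n` bits which randomised algorithms solve with
one-sided error `1 / 3`, with `O(log n)` random bits and a constant number of queries, while
deterministic branching programs of length at most `k n` need `2 ^ (n / D)` nodes: in time `k n`
they need space `n / D`.  The problem: to distinguish the assignments which satisfy a formula
(random clauses of constant width) from the assignments which violate a constant fraction of its
clauses.

The lemmas were proved together with helper35, helper375, helper403, helper415, helper619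
(programs of length `k n`), helper92 (composition of programs) and helper30, helper269 (random
clauses).
-/

set_option autoImplicit false

namespace Pool.Agent.Results.MP_92893d_lc.ConstantQueries

open Pool.Agent.H554R2.Sem Pool.Agent.H554R2.Coin Pool.Agent.H554R2.Cnf

/-- For every `k` there is a constant `D` such that for all `n ≥ D` there are `J ≤ D n` clauses
`T j` of at most `D` literals in `n` variables with the following properties.

* For every `ω` (a sequence of `2 D` of the numbers `0, ..., J - 1`) there is a deterministic
  program `U ω` with at most `9 D ^ 2` nodes, which makes at most `2 D ^ 2` queries on every input.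
  If `x` satisfies all the clauses, then all the programs `U ω` output `true` on `x`.  If `x`
  violates at least `J / D` of the clauses, then at most one third of them does so.
* Let `P` be a deterministic program with fewer than `2 ^ (n / D)` nodes which does not output
  `true` on any `x` which violates at least `J / D` of the clauses.  Then `P` outputs `true` after
  at most `k n` queries for less than a fraction `1 / 2 ^ (n / D)` of the points `x` which satisfy
  all the clauses. -/
theorem result (k : ℕ) : ∃ D : ℕ, 0 < D ∧ ∀ n ≥ D,
    ∃ (J : ℕ) (T : Fin J → Finset (Fin n × Bool)), 0 < J ∧ J ≤ D * n ∧ (∀ j, (T j).card ≤ D) ∧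
      (∃ U : (Fin (2 * D) → Fin J) → BP (Fin n) Bool,
        (∀ ω, Fintype.card (U ω).State ≤ 9 * D ^ 2 ∧
          ∀ x, ∃ (l : List (Fin n)) (b : Bool), l.length ≤ 2 * D ^ 2 ∧ (U ω).Comp x l b) ∧
        (∀ x, (∀ j, Sat (T j) x) → ∀ ω, ∃ l, (U ω).Comp x l true) ∧
        (∀ x, J ≤ D * Nat.card {j // ¬ Sat (T j) x} →
          3 * Nat.card {ω // ∃ l, (U ω).Comp x l true} ≤ J ^ (2 * D))) ∧
      ∀ P : BP (Fin n) Bool, Fintype.card P.State < 2 ^ (n / D) →
        (∀ x, J ≤ D * Nat.card {j // ¬ Sat (T j) x} → ¬ ∃ l, P.Comp x l true) →
        2 ^ (n / D) * Nat.card {x // (∀ j, Sat (T j) x) ∧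
            ∃ l, P.Comp x l true ∧ l.length ≤ k * n} <
          Nat.card {x : Pt n // ∀ j, Sat (T j) x} :=
  Pool.Agent.H554R2.Gap.det_main k

end Pool.Agent.Results.MP_92893d_lc.ConstantQueries
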