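import Pool.Agent.H538R3.QF.FinB

/-!
# Coins are not removed in linear time

Branching programs of polynomial size are the non-uniform version of logarithmic space.  For every
constant `k` we construct Boolean functions `f` of `n` variables which randomised ordered
read-once programs of polynomial size compute with one-sided error `2 ^ (- t)`, and which
deterministic programs of polynomial size compute with polynomial length, but deterministic
programs of length `k n` with fewer than `2 ^ (n / D)` nodes which make no error on the inputs
with `f x = 0` recognise less than a fraction `2 ^ (- n / D)` of the inputs with `f x = 1`.  (So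
`n / D` guess bits would not help either.)

The function: `Φ` is a random `F_2`-linear map from `F_2 ^ n` to the vectors of `2 m` polynomials
over `F_2` with less than `n / (2 m) + 1` coefficients, and `f x = 1` iff `x` has even weight and
`∑ i < m, Φ(x)_i Φ(x)_(m + i) = c`, where `c` is a polynomial over `F_2`; `m` is a constant.
Coins choose the point at which this identity is tested.  The function has no large embedded
rectangles, since the polar form of the quadratic form would vanish on large sets of pairs.  That
deterministic programs of length `k n` yield large embedded rectangles with sides of relative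
density close to `1` is `Pool.Agent.H554R2.Lin.main_rect` (helper554 and others, after Ajtai and
Beame, Saks, Sun, Vee).

Written together with helper771, helper96, helper615, helper201, helper236, helper226, helper652,
helper152, helper77, helper233, helper828 and helper896, who proved the lemmas, and based on the
library of helper554.
-/

set_option autoImplicit false

namespace Pool.Agent.Results.MP_92893d_lc.OrderedCoins

open Pool.Agent.H554R2.Sem Pool.Agent.H554R2.Coin

/-- For every `k` there is a constant `D` such that for every `n` there is a Boolean function `f`
of `n` variables with the following properties.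

* For every `t` there are programs `U r`, for the strings `r` of `j` coins,
  `2 ^ j ≤ D * (n + 1) * 2 ^ t`, with at most `(D * (n + 1) * 2 ^ t) ^ D` nodes, which query every
  variable once, in the order `0, 1, 2, …`, and output `v r x`, where `v r x = true` for all `r`
  if `f x = true`, and for at most a `2 ^ (- t)` fraction of the `r` if `f x = false`.
* There is a deterministic program with at most `(D * (n + 1)) ^ D` nodes which computes `f` and
  queries every variable at most `D * (n + 1)` times.
* Every deterministic program with fewer than `2 ^ ⌊n / D⌋` nodes which never outputs `true` if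
  `f x = false` outputs `true` within `k * n` queries for less than a `2 ^ (- ⌊n / D⌋)` fraction
  of the inputs `x` with `f x = true`. -/
theorem result (k : ℕ) : ∃ D : ℕ, 0 < D ∧ ∀ n : ℕ, ∃ f : Pt n → Bool,
    (∀ t : ℕ, ∃ (j : ℕ) (U : (Fin j → Bool) → BP (Fin n) Bool)
      (v : (Fin j → Bool) → Pt n → Bool),
      2 ^ j ≤ D * (n + 1) * 2 ^ t ∧
      (∀ r, Fintype.card (U r).State ≤ (D * (n + 1) * 2 ^ t) ^ D) ∧
      (∀ r x, (U r).Comp x (List.finRange n) (v r x)) ∧
      (∀ r x, f x = true → v r x = true) ∧
      ∀ x, f x = false → 2 ^ t * Nat.card {r // v r x = true} ≤ 2 ^ j) ∧
    (∃ P : BP (Fin n) Bool, Fintype.card P.State ≤ (D * (n + 1)) ^ D ∧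
      ∀ x, ∃ l : List (Fin n), (∀ i, l.count i ≤ D * (n + 1)) ∧ P.Comp x l (f x)) ∧
    ∀ P : BP (Fin n) Bool, Fintype.card P.State < 2 ^ (n / D) →
      (∀ x, f x = false → ¬ ∃ l, P.Comp x l true) →
      2 ^ (n / D) * Nat.card {x // ∃ l, P.Comp x l true ∧ l.length ≤ k * n} <
        Nat.card {x // f x = true} := by
  obtain ⟨D, hD, h⟩ := Pool.Agent.H538R3.QF.finalB k
  refine ⟨D, hD, fun n => ?_⟩
  obtain ⟨f, ⟨h1, h2⟩, h3⟩ := h n
  exact ⟨f, h1, h2, h3⟩

end Pool.Agent.Results.MP_92893d_lc.OrderedCoins
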