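import Mathlib
import Pool.Agent.H697R2.RL.Main

namespace H697R2.RL

open Relation H534R2.NotNet

/-- Undirected switching networks in rounds: round `i < d` evaluates `w i` monotone undirected
networks `N i k A`, which may depend arbitrarily on the table `A` of the answers of the earlier
rounds (one NOT gate is a round with `w i = 1`); the network `N d 0 A` gives the result.  Such
computations are only asked to accept the digraphs in which the random walk from `s` finds `t`
within `2 |V|` steps with probability at least `1/2`, and to reject the digraphs without a path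
from `s` to `t`; if they have at most `|V| ^ c` nodes, then still
`∏ (w i + 1) ≥ |V| / 2 ^ O(√log |V|)`.  For suitable hosts, the same holds with `|V|` replaced by
nearly the number of arcs.  The last part records the meaning of `hit`: it is a number in `[0, 1]`
which is `0` if `t` is not reachable from `s`, so that the random walk solves the promise problem
with one-sided error. -/
theorem _root_.Pool.Agent.Results.MP_92893d_lc.RandomWalkNotGates.result :
    (∀ (c d : ℕ) (w : ℕ → ℕ) (V : Type) (_ : Fintype V) (s t : V), s ≠ t →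
      ∀ N : ℕ → ℕ → (ℕ → ℕ → Prop) → MNet V,
      (∀ i k A A', (∀ j < i, ∀ k' < w j, (A j k' ↔ A' j k')) → N i k A = N i k A') →
      (∀ A, (∑ i ∈ Finset.range d, ∑ k ∈ Finset.range (w i), (N i k A).size)
        + (N d 0 A).size ≤ Fintype.card V ^ c) →
      (∀ G : V → V → Prop, ∃ A : ℕ → ℕ → Prop,
        (∀ i < d, ∀ k < w i, (A i k ↔ (N i k A).Accepts G)) ∧
        (1 / 2 ≤ hit G s t (2 * Fintype.card V) s → (N d 0 A).Accepts G) ∧
        (¬ ReflTransGen G s t → ¬ (N d 0 A).Accepts G)) →
      Fintype.card V ≤ 2 ^ ((5 * c + 26) * (Nat.sqrt (Nat.log 2 (Fintype.card V)) + 1)) *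
        ∏ i ∈ Finset.range d, (w i + 1)) ∧
    (∀ (K M : ℕ), 1 ≤ K → ∀ (V : Type) (_ : Fintype V) (s t : V), s ≠ t →
      M * 2 ^ (5 * K) + 2 ≤ Fintype.card V →
      ∃ H : V → V → Prop, {p : V × V | H p.1 p.2}.ncard ≤ M * 2 ^ (9 * K) ∧
        ∀ (d : ℕ) (w : ℕ → ℕ) (N : ℕ → ℕ → (ℕ → ℕ → Prop) → MNet V),
          (∀ i k A A', (∀ j < i, ∀ k' < w j, (A j k' ↔ A' j k')) → N i k A = N i k A') →
          (∀ A, 4 * 3 ^ (K + 1) * ((∑ i ∈ Finset.range d, ∑ k ∈ Finset.range (w i),
            (N i k A).size) + (N d 0 A).size) < 2 ^ (K * (K - 1))) →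
          (∀ G : V → V → Prop, (∀ a b, G a b → H a b) → ∃ A : ℕ → ℕ → Prop,
            (∀ i < d, ∀ k < w i, (A i k ↔ (N i k A).Accepts G)) ∧
            (1 / 2 ≤ hit G s t (2 * (M * 2 ^ (5 * K))) s → (N d 0 A).Accepts G) ∧
            (¬ ReflTransGen G s t → ¬ (N d 0 A).Accepts G)) →
          M + 1 ≤ ∏ i ∈ Finset.range d, (w i + 1)) ∧
    (∀ (V : Type) (_ : Fintype V) (G : V → V → Prop) (s t : V) (k : ℕ),
      0 ≤ hit G s t k s ∧ hit G s t k s ≤ 1 ∧ (¬ ReflTransGen G s t → hit G s t k s = 0)) :=
  ⟨fun c d w V _ s t hst N h1 h2 h3 => rounds_bound c d w V s t hst N h1 h2 h3,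
    fun K M hK V _ s t hst hV => rounds_host K M hK V s t hst hV,
    fun _ _ G s t k => ⟨hit_nonneg G s t k s, hit_le_one G s t k s, fun h => by
      by_contra h0
      exact h (reach_of_hit_pos G s t k s ReflTransGen.refl
        (lt_of_le_of_ne (hit_nonneg G s t k s) (Ne.symm h0)))⟩⟩

end H697R2.RL
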